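import Pool.Agent.L0h5.TU.Stm

/-!
# The growth of the average, by types
-/

set_option autoImplicit false

namespace Pool.Agent.L0h93.TU

open Finset Pool.Agent.W262.RK Pool.Agent.L0h5.TF Pool.Agent.L0h5.TU Pool.Agent.L0h94.FT

section

variable {J : Type} [Fintype J] [DecidableEq J]

lemma sq_mem {e : J → ℕ} (h : Squarefree (∏ j, e j)) (i : J) : Squarefree (e i) :=
  h.squarefree_of_dvd (dvd_prod_of_mem _ (mem_univ i))

lemma co_mem {e : J → ℕ} (h : Squarefree (∏ j, e j)) {i j : J} (hij : i ≠ j) :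
    (e i).Coprime (e j) := by
  have h1 : e i * e j ∣ ∏ j, e j := by
    rw [← prod_pair hij]
    exact prod_dvd_prod_of_subset _ _ _ (subset_univ _)
  exact Nat.coprime_of_squarefree_mul (h.squarefree_of_dvd h1)

lemma mem_pf_prod (e : J → ℕ) (h : (∏ j, e j) ≠ 0) (p : ℕ) :
    p ∈ (∏ j, e j).primeFactors ↔ ∃ j, p ∈ (e j).primeFactors := by
  have h0 : ∀ j, e j ≠ 0 := fun j => (prod_ne_zero_iff.1 h) j (mem_univ j)
  constructor
  · intro hp
    obtain ⟨h1, h2, _⟩ := Nat.mem_primeFactors.1 hp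
    obtain ⟨j, _, hj⟩ := (h1.prime.dvd_finset_prod_iff _).1 h2
    exact ⟨j, Nat.mem_primeFactors.2 ⟨h1, hj, h0 j⟩⟩
  · rintro ⟨j, hj⟩
    obtain ⟨h1, h2, _⟩ := Nat.mem_primeFactors.1 hj
    exact Nat.mem_primeFactors.2 ⟨h1, h2.trans (dvd_prod_of_mem _ (mem_univ j)), h⟩

lemma card_pf_prod (e : J → ℕ) (h : Squarefree (∏ j, e j)) :
    (∏ j, e j).primeFactors.card = ∑ j, (e j).primeFactors.card := by
  have h1 : (∏ j, e j).primeFactors = univ.biUnion (fun j => (e j).primeFactors) := by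
    ext p
    rw [mem_pf_prod e h.ne_zero p, mem_biUnion]
    simp
  rw [h1, card_biUnion]
  intro i _ j _ hij
  exact (co_mem h hij).disjoint_primeFactors

lemma Gs_congr {k : ℕ} (lam lam' : ℕ → Vk k → Vk k → ℝ) (m : ℕ)
    (h : ∀ p, p.Prime → p ∣ m → lam p = lam' p) : Gs lam m = Gs lam' m := by
  rw [Gs_def, Gs_def]
  refine sum_congr rfl fun D _ => prod_congr rfl fun p hp => ?_
  rw [h p (Nat.prime_of_mem_primeFactors hp) (Nat.dvd_of_mem_primeFactors hp)]

/-- the local average does not change -/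
lemma lamT_mul {k : ℕ} (lam : J → ℕ → Vk k → Vk k → ℝ) (s e : J → ℕ)
    (h : Squarefree ((∏ j, s j) * ∏ j, e j)) (p : ℕ) (hp : p.Prime) (hps : p ∣ ∏ j, s j) :
    lamT lam (fun j => s j * e j) p = lamT lam s p := by
  have hco := Nat.coprime_of_squarefree_mul h
  have hpe : ∀ j, ¬ p ∣ e j := fun j hj => by
    have h1 : p ∣ ∏ j, e j := hj.trans (dvd_prod_of_mem _ (mem_univ j))
    have h2 := Nat.dvd_gcd hps h1
    rw [hco.gcd_eq_one] at h2
    exact hp.one_lt.ne' (Nat.dvd_one.1 h2)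
  have h3 : ∀ j, p ∣ s j * e j ↔ p ∣ s j := fun j => by
    rw [hp.dvd_mul]
    simp [hpe j]
  unfold lamT
  simp only [h3]

end

section

variable {J St : Type} [Fintype J] [DecidableEq J] {k c z : ℕ} {Sp : ℕ → Finset St}
  {LS : St → ℕ → Bool → Bool → Bool → Bool → Prop} {ty : St → J}
  {lam : J → ℕ → Vk k → Vk k → ℝ}

open Classical in
lemma lamT_eq (H : Hl c z Sp LS ty lam) (s : J → ℕ) (p : ℕ) (hp : p.Prime) (hz : z < p)
    (v h : Vk k) : lamT lam s p v h = ∑ σ ∈ (Sp p).filter (fun σ => p ∣ s (ty σ)),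
      (1 / 2) * ∏ i, iL (LS σ p) (v i) (h i) := by
  unfold lamT
  rw [sum_filter, ← sum_fiberwise (Sp p) ty]
  refine sum_congr rfl fun j _ => ?_
  rw [H.lam_eq p hp hz j v h]
  split_ifs with h1
  · refine sum_congr ?_ fun σ hσ => ?_
    · ext σ
      simp
    · rw [(mem_filter.1 hσ).2, if_pos h1]
  · symm
    refine sum_eq_zero fun σ hσ => ?_
    rw [(mem_filter.1 hσ).2, if_neg h1]

lemma lamT_nonneg (H : Hl c z Sp LS ty lam) (s : J → ℕ) (p : ℕ) (hp : p.Prime) (hz : z < p)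
    (v h : Vk k) : 0 ≤ lamT lam s p v h := by
  rw [lamT_eq H s p hp hz v h]
  exact sum_nonneg fun σ _ => mul_nonneg (by norm_num) (prod_nonneg fun i _ => iL_nonneg _ _ _)

lemma GT_nonneg (H : Hl c z Sp LS ty lam) (s : J → ℕ)
    (hz : ∀ p, p.Prime → p ∣ ∏ j, s j → z < p) : 0 ≤ GT lam s := by
  unfold GT
  rw [Gs_def]
  refine sum_nonneg fun D _ => prod_nonneg fun p hp => ?_
  have h1 := Nat.prime_of_mem_primeFactors hp
  exact lamT_nonneg H s p h1 (hz p h1 (Nat.dvd_of_mem_primeFactors hp)) _ _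

end

/-- **E1** -/
theorem gro : S2_GRO := by
  classical
  intro J St _ _ k c z Sp LS ty lam H s e h hz
  have hz' : ∀ p, p.Prime → p ∣ (∏ j, s j) * ∏ j, e j → z < p := by
    intro p hp hd
    rw [← prod_mul_distrib] at hd
    exact hz p hp hd
  refine ⟨GT_nonneg H s fun p hp hd => hz' p hp (hd.mul_right _), ?_⟩
  rw [prod_mul_distrib] at h
  have h1 := sub_abs (k := k) (fun p => (Sp p).filter (fun σ => p ∣ s (ty σ) * e (ty σ)))
    LS (fun p => lamT lam (fun j => s j * e j) p) c (∏ j, s j) (∏ j, e j) h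
    (fun p hp hd v h => lamT_eq H (fun j => s j * e j) p hp (hz' p hp hd) v h)
    (fun p hp hd => by
      have h2 : ((Sp p).filter (fun σ => p ∣ s (ty σ) * e (ty σ))).card ≤ 2 * c :=
        (card_filter_le _ _).trans (H.card_le p hp (hz' p hp (hd.mul_left _)))
      have h3 : ((((Sp p).filter (fun σ => p ∣ s (ty σ) * e (ty σ))).card : ℕ) : ℝ) ≤ 2 * c := by
        exact_mod_cast h2
      linarith)
    (fun p hp hd σ hσ => H.xc p hp (hz' p hp (hd.mul_right _)) σ (mem_filter.1 hσ).1)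
  rw [card_pf_prod e h.of_mul_right] at h1
  have h2 : Gs (fun p => lamT lam (fun j => s j * e j) p) (∏ j, s j) = GT lam s := by
    refine Gs_congr _ _ _ fun p hp hps => ?_
    rw [lamT_mul lam s e h p hp hps]
  rw [h2] at h1
  unfold GT at h1 ⊢
  rw [prod_mul_distrib]
  exact h1

end Pool.Agent.L0h93.TU
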