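import Pool.Agent.L0h93.TU.Gro
import Pool.Agent.L0h5.NT.RSg

/-!
# The trivial bound for the average
-/

set_option autoImplicit false

namespace Pool.Agent.L0h93.TU

open Finset Polynomial Pool.Agent.W262.RK Pool.Agent.L0h5.TF Pool.Agent.L0h5.TU
  Pool.Agent.L0h94.FT
open Pool.Agent.L0h5.NT Pool.Agent.W405.RK2

/-- Mertens -/
lemma mertc (c z : ℕ) (hz : 2 * c + 2 ≤ z) : ∃ C : ℝ, ∀ y : ℕ, z < y →
    ∑ p ∈ PS z y, (1 : ℝ) / ((p : ℝ) - c) ≤ Real.log (Real.log y) + C := by
  have hX : Irreducible ((X : ℤ[X]).map (Int.castRingHom ℚ)) := by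
    rw [Polynomial.map_X]
    exact irreducible_X
  obtain ⟨C, hC⟩ := sum_rho_c (X : ℤ[X]) hX c z hz (fun p hp _ hd => by
    rw [leadingCoeff_X] at hd
    have h1 := Int.eq_one_of_dvd_one (by positivity) hd
    have h2 := hp.one_lt
    omega)
  refine ⟨C, fun y hy => ?_⟩
  refine le_trans (le_of_eq (sum_congr rfl fun p hp => ?_)) (hC y hy)
  rw [rho_X p (mem_PS.1 hp).2.pos]
  norm_num

section

variable {J : Type} [Fintype J] [DecidableEq J]

lemma sq_Tup {z y : ℕ} {s : J → ℕ} (hs : s ∈ Tup J z y) : Squarefree (∏ j, s j) := by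
  have h := Pool.Agent.W405.RK2.mem_Tup.1 hs
  have hsq : ∀ j, Squarefree (s j) := fun j =>
    (Pool.Agent.W405.RK2.PP_squarefree z y).squarefree_of_dvd (h.1 j)
  have key : ∀ S : Finset J, Squarefree (∏ j ∈ S, s j) := by
    intro S
    induction S using Finset.induction_on with
    | empty =>
      rw [prod_empty]
      exact squarefree_one
    | insert a S ha ih =>
      rw [prod_insert ha, Nat.squarefree_mul]
      · exact ⟨hsq a, ih⟩
      · exact Nat.Coprime.prod_right fun j hj => h.2 a j (by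
          rintro rfl
          exact ha hj)
  exact key univ

lemma lt_Tup {z y : ℕ} {s : J → ℕ} (hs : s ∈ Tup J z y) (p : ℕ) (hp : p.Prime)
    (hd : p ∣ ∏ j, s j) : z < p := by
  have h := Pool.Agent.W405.RK2.mem_Tup.1 hs
  obtain ⟨j, _, hj⟩ := (hp.prime.dvd_finset_prod_iff _).1 hd
  have h1 : p ∣ PP z y := hj.trans (h.1 j)
  exact Pool.Agent.W655.RK.PS_lt (Pool.Agent.W405.RK2.prime_dvd_PP hp h1)

variable {St : Type} {k c z : ℕ} {Sp : ℕ → Finset St}
  {LS : St → ℕ → Bool → Bool → Bool → Bool → Prop} {ty : St → J}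
  {lam : J → ℕ → Vk k → Vk k → ℝ}

lemma GT_one : GT lam (fun _ => 1) = 1 := by
  unfold GT
  rw [prod_const_one, Gs_def, Nat.primeFactors_one]
  simp only [prod_empty, sum_const, nsmul_eq_mul, mul_one]
  unfold Dv
  rw [Fintype.card_piFinset]
  simp

/-- the pointwise bound -/
lemma GT_le (hG : S2_GRO) (H : Hl c z Sp LS ty lam) (y : ℕ) (s : J → ℕ) (hs : s ∈ Tup J z y) :
    GT lam s ≤ ∏ j, ((4 : ℝ) ^ k * c) ^ (s j).primeFactors.card := by
  have h1 := (hG J St k c z Sp LS ty lam H (fun _ => 1) s (by simpa using sq_Tup hs)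
    (by simpa using lt_Tup hs)).2
  rw [GT_one, mul_one, ← prod_pow_eq_pow_sum] at h1
  simpa using h1

end

/-- **E2** -/
theorem trv (hG : S2_GRO) : S2_TRV := by
  intro J St _ _ k c z Sp LS ty lam H hz hz2
  refine ⟨Fintype.card J * (4 ^ k * c), fun lm hlm => ?_⟩
  obtain ⟨Cm, hCm⟩ := mertc c z hz2
  set b : ℝ := (4 : ℝ) ^ k * c with hb
  have hb0 : 0 ≤ b := by positivity
  have hnn : ∀ y, z < y → ∀ s ∈ Tup J z y, 0 ≤ GT lam s := fun y _ s hs =>
    GT_nonneg H s (lt_Tup hs)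
  have hnn2 : ∀ y, z < y → ∀ s e : J → ℕ, (fun j => s j * e j) ∈ Tup J z y →
      GT lam (fun j => s j * e j) ≤ b ^ (∑ j, (e j).primeFactors.card) * GT lam s ∧
      0 ≤ GT lam s ∧ 0 ≤ GT lam (fun j => s j * e j) := by
    intro y hy s e h
    have h1 := hG J St k c z Sp LS ty lam H s e (sq_Tup h) (lt_Tup h)
    exact ⟨h1.2, h1.1, hnn y hy _ h⟩
  have hg : ∀ y, z < y → ∀ s e : J → ℕ, (fun j => s j * e j) ∈ Tup J z y →
      |GT lam (fun j => s j * e j)| ≤ b ^ (∑ j, (e j).primeFactors.card) * |GT lam s| := by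
    intro y hy s e h
    obtain ⟨h1, h2, h3⟩ := hnn2 y hy s e h
    rw [abs_of_nonneg h2, abs_of_nonneg h3]
    exact h1
  have hS : ∀ y, z < y → ∑ s ∈ Tup J z y, |GT lam s| * ∏ j, gw 1 c (s j) ≤
      Real.exp (Fintype.card J * b * Cm) * (Real.log y) ^ (Fintype.card J * (4 ^ k * c)) := by
    intro y hy
    have hy3 : 3 ≤ y := by omega
    have hyr : (3 : ℝ) ≤ y := by exact_mod_cast hy3
    have hl1 : 1 < Real.log y := by
      rw [Real.lt_log_iff_exp_lt (by linarith)]
      have := Real.exp_one_lt_d9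
      linarith
    set φ : ℕ → ℝ := fun d => b ^ d.primeFactors.card * gw 1 c d with hφ
    have hφn : ∀ d ∈ (PP z y).divisors, 0 ≤ φ d := fun d hd =>
      mul_nonneg (by positivity) (gw1_nonneg (by omega) (Nat.dvd_of_mem_divisors hd))
    have h1 : ∑ s ∈ Tup J z y, |GT lam s| * ∏ j, gw 1 c (s j) ≤
        ∑ s ∈ Tup J z y, ∏ j, φ (s j) := by
      refine sum_le_sum fun s hs => ?_
      rw [hφ, prod_mul_distrib, abs_of_nonneg (hnn y hy s hs)]
      refine mul_le_mul_of_nonneg_right (GT_le hG H y s hs) (prod_nonneg fun j _ => ?_)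
      exact gw1_nonneg (by omega) ((Pool.Agent.W405.RK2.mem_Tup.1 hs).1 j)
    have h2 : ∑ s ∈ Tup J z y, ∏ j, φ (s j) ≤
        ∑ s ∈ Fintype.piFinset (fun _ : J => (PP z y).divisors), ∏ j, φ (s j) := by
      refine sum_le_sum_of_subset_of_nonneg (fun s hs => ?_) fun e he _ => ?_
      · exact Fintype.mem_piFinset.2 fun j => Nat.mem_divisors.2
          ⟨(Pool.Agent.W405.RK2.mem_Tup.1 hs).1 j, Pool.Agent.W405.RK2.PP_ne_zero z y⟩
      · exact prod_nonneg fun j _ => hφn _ (Fintype.mem_piFinset.1 he j)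
    have h3 : ∑ s ∈ Fintype.piFinset (fun _ : J => (PP z y).divisors), ∏ j, φ (s j) =
        (∑ d ∈ (PP z y).divisors, φ d) ^ (Fintype.card J) := by
      rw [← Finset.prod_univ_sum, prod_const, Finset.card_univ]
    set ψ : ℕ → ℝ := fun p => b * (1 / ((p : ℝ) - c)) with hψ
    have h4 : ∑ d ∈ (PP z y).divisors, φ d = ∏ p ∈ PS z y, (1 + ψ p) := by
      have := Pool.Agent.W655.RK.sum_mult (PS z y) (fun p hp => Pool.Agent.W655.RK.PS_prime hp) ψ
      rw [← this]
      refine sum_congr rfl fun d _ => ?_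
      simp only [hφ, hψ, gw]
      rw [← prod_const, ← prod_mul_distrib]
      try push_cast
      try rfl
    have hψn : ∀ p ∈ PS z y, 0 ≤ ψ p := by
      intro p hp
      have hpz := Pool.Agent.W655.RK.PS_lt hp
      have hp1 : (c : ℝ) + 1 ≤ p := by exact_mod_cast (by omega : c + 1 ≤ p)
      exact mul_nonneg hb0 (div_nonneg (by norm_num) (by linarith))
    have h5 : ∏ p ∈ PS z y, (1 + ψ p) ≤ Real.exp (∑ p ∈ PS z y, ψ p) :=
      Pool.Agent.W655.RK.prod_le_exp _ _ fun p hp => by linarith [hψn p hp]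
    have h6 : ∑ p ∈ PS z y, ψ p ≤ b * (Real.log (Real.log y) + Cm) := by
      rw [hψ, ← mul_sum]
      exact mul_le_mul_of_nonneg_left (hCm y hy) hb0
    have h7 : 0 ≤ ∑ d ∈ (PP z y).divisors, φ d := sum_nonneg hφn
    calc _ ≤ _ := h1
      _ ≤ _ := h2
      _ = _ := h3
      _ ≤ (Real.exp (b * (Real.log (Real.log y) + Cm))) ^ (Fintype.card J) := by
          refine pow_le_pow_left₀ h7 ?_ _
          rw [h4]
          exact h5.trans (Real.exp_le_exp.2 h6)
      _ = Real.exp (Fintype.card J * b * Cm) *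
            (Real.log y) ^ (Fintype.card J * (4 ^ k * c)) := by
          have h8 : (Real.log y) ^ (Fintype.card J * (4 ^ k * c)) =
              Real.exp (Fintype.card J * b * Real.log (Real.log y)) := by
            rw [← Real.rpow_natCast, Real.rpow_def_of_pos (by linarith)]
            congr 1
            push_cast
            rw [hb]
            ring
          rw [h8, ← Real.exp_nat_mul, ← Real.exp_add]
          congr 1
          ring
  obtain ⟨C, hC⟩ := rs_g J z c (Fintype.card J * (4 ^ k * c)) (fun s => |GT lam s|) b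
    (Real.exp (Fintype.card J * b * Cm)) lm hb0 hz2 hlm (fun s => abs_nonneg _) hg hS
  refine ⟨|C|, abs_nonneg C, fun y hy => ?_⟩
  have hy3 : 3 ≤ y := by omega
  have hyr : (1 : ℝ) ≤ y := by exact_mod_cast (by omega : 1 ≤ y)
  have h1 : ∑ s ∈ Tup J z y, GT lam s * (∏ j, gw 1 c (s j)) *
      (∏ j, (s j : ℝ)) ^ (lm / Real.log y) = ∑ s ∈ Tup J z y, |GT lam s| * (∏ j, gw 1 c (s j)) *
      (∏ j, (s j : ℝ)) ^ (lm / Real.log y) :=
    sum_congr rfl fun s hs => by rw [abs_of_nonneg (hnn y hy s hs)]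
  rw [h1]
  exact (hC y hy).trans (mul_le_mul_of_nonneg_right (le_abs_self C)
    (pow_nonneg (Real.log_nonneg hyr) _))

end Pool.Agent.L0h93.TU
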